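import Mathlib
import Pool.Agent.TFA.Decomp

set_option autoImplicit false

/-!
# Triangle-free strongly regular Cayley graphs of abelian groups

A triangle-free strongly regular graph with `1 ≤ μ < k` which admits a regular abelian group of
automorphisms (a Cayley graph of an abelian group) has parameters `(5, 2, 0, 1)` or `(16, 5, 0, 2)`.
-/

open Pool.Agent.TFA

namespace Pool.Agent.Results.MP_9bfff8_co.AbelianCayley

theorem result {A : Type*} [AddCommGroup A] [Fintype A] [DecidableEq A] (Γ : SimpleGraph A)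
    [DecidableRel Γ.Adj] (htrans : ∀ a x y : A, Γ.Adj x y → Γ.Adj (a + x) (a + y)) (n k μ : ℕ)
    (hsrg : Γ.IsSRGWith n k 0 μ) (h1 : 1 ≤ μ) (h2 : μ < k) :
    (n = 5 ∧ k = 2 ∧ μ = 1) ∨ (n = 16 ∧ k = 5 ∧ μ = 2) := by
  have hadj : ∀ a x y : A, Γ.Adj (a + x) (a + y) ↔ Γ.Adj x y := by
    intro a x y
    constructor
    · intro h
      have := htrans (-a) _ _ h
      rw [neg_add_cancel_left, neg_add_cancel_left] at this
      exact this
    · exact htrans a x y
  have hsub : ∀ x y : A, Γ.Adj 0 (y - x) ↔ Γ.Adj x y := by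
    intro x y
    rw [← hadj x 0 (y - x), add_zero, add_sub_cancel]
  let D : A → ℤ := fun x => if Γ.Adj 0 x then 1 else 0
  have hneg : ∀ x, D (-x) = D x := by
    intro x
    have : Γ.Adj 0 (-x) ↔ Γ.Adj 0 x := by
      rw [← zero_sub, hsub]
      exact Γ.adj_comm _ _
    show (if Γ.Adj 0 (-x) then (1 : ℤ) else 0) = if Γ.Adj 0 x then 1 else 0
    rw [if_congr this rfl rfl]
  have hval : ∀ x, D x = 0 ∨ D x = 1 := by
    intro x
    show (if Γ.Adj 0 x then (1 : ℤ) else 0) = 0 ∨ (if Γ.Adj 0 x then (1 : ℤ) else 0) = 1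
    split_ifs
    · exact Or.inr rfl
    · exact Or.inl rfl
  have hD0 : D 0 = 0 := if_neg (Γ.loopless.irrefl 0)
  have hTF : TF D (k : ℤ) (μ : ℤ) := by
    refine ⟨hval, hD0, hneg, ?_, by exact_mod_cast h1, by exact_mod_cast h2⟩
    intro g
    by_cases hg : g = 0
    · rw [if_pos hg, hg]
      unfold conv
      have h3 : ∀ y, D y * D (0 - y) = if Γ.Adj 0 y then 1 else 0 := by
        intro y
        rw [zero_sub, hneg]
        show (if Γ.Adj 0 y then (1 : ℤ) else 0) * (if Γ.Adj 0 y then (1 : ℤ) else 0) = _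
        split_ifs <;> norm_num
      rw [Finset.sum_congr rfl fun y _ => h3 y, Finset.sum_boole]
      have h4 := hsrg.regular 0
      rw [← h4, ← Γ.card_neighborFinset_eq_degree, Γ.neighborFinset_eq_filter]
    · rw [if_neg hg]
      unfold conv
      have h3 : ∀ y, D y * D (g - y) = if y ∈ Γ.commonNeighbors 0 g then 1 else 0 := by
        intro y
        have h5 : y ∈ Γ.commonNeighbors 0 g ↔ Γ.Adj 0 y ∧ Γ.Adj 0 (g - y) := by
          rw [SimpleGraph.mem_commonNeighbors, hsub, Γ.adj_comm g y]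
        rw [if_congr h5 rfl rfl]
        show (if Γ.Adj 0 y then (1 : ℤ) else 0) * (if Γ.Adj 0 (g - y) then (1 : ℤ) else 0) = _
        by_cases h6 : Γ.Adj 0 y <;> by_cases h7 : Γ.Adj 0 (g - y) <;> simp [h6, h7]
      rw [Finset.sum_congr rfl fun y _ => h3 y, Finset.sum_boole]
      have h6 : ((Finset.univ.filter fun y => y ∈ Γ.commonNeighbors 0 g).card : ℤ) =
          (Fintype.card (Γ.commonNeighbors 0 g) : ℤ) := by
        rw [Fintype.card_subtype]
      rw [h6]
      by_cases h7 : Γ.Adj 0 g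
      · rw [hsrg.of_adj 0 g h7]
        show _ = (μ : ℤ) * (1 - (if Γ.Adj 0 g then (1 : ℤ) else 0))
        rw [if_pos h7]
        simp
      · rw [hsrg.of_not_adj (Ne.symm hg) h7]
        show _ = (μ : ℤ) * (1 - (if Γ.Adj 0 g then (1 : ℤ) else 0))
        rw [if_neg h7]
        simp
  have hn := hsrg.card
  rcases hTF.params with ⟨h3, h4, h5⟩ | ⟨h3, h4, h5⟩
  · left
    exact ⟨by rw [← hn, h3], by exact_mod_cast h4, by exact_mod_cast h5⟩
  · right
    exact ⟨by rw [← hn, h3], by exact_mod_cast h4, by exact_mod_cast h5⟩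

end Pool.Agent.Results.MP_9bfff8_co.AbelianCayley
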