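import Mathlib
import Pool.Agent.OBC.Graph

set_option autoImplicit false

/-!
# Triangle-free strongly regular graphs with a semiregular abelian group with two orbits

A triangle-free strongly regular graph with `1 ≤ μ < k` which admits an abelian group of odd order
acting semiregularly by automorphisms with exactly two vertex orbits (a bi-Cayley graph of an
abelian group of odd order) has parameters `(10, 3, 0, 1)` or `(50, 7, 0, 1)`.
-/

namespace Pool.Agent.Results.MP_9bfff8_co.OddBiCayley

theorem result {V : Type*} [Fintype V] [DecidableEq V] (Γ : SimpleGraph V) [DecidableRel Γ.Adj]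
    (n k μ : ℕ) (hsrg : Γ.IsSRGWith n k 0 μ) (h1 : 1 ≤ μ) (h2 : μ < k)
    {A : Type*} [AddCommGroup A] [Fintype A] [AddAction A V] (hodd : Odd (Fintype.card A))
    (htrans : ∀ (a : A) (x y : V), Γ.Adj x y → Γ.Adj (a +ᵥ x) (a +ᵥ y))
    (hfree : ∀ (a : A) (x : V), a +ᵥ x = x → a = 0)
    (hcard : Fintype.card V = 2 * Fintype.card A) :
    (n = 10 ∧ k = 3 ∧ μ = 1) ∨ (n = 50 ∧ k = 7 ∧ μ = 1) := by
  classical
  exact Pool.Agent.OBC.params_graph Γ hsrg h1 h2 hodd htrans hfree hcard

end Pool.Agent.Results.MP_9bfff8_co.OddBiCayley
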