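import Mathlib
import Pool.Agent.TFQ.Main

set_option autoImplicit false

/-!
# The prime power part of the order of a triangle-free strongly regular graph

If a triangle-free strongly regular graph with `1 ≤ μ < k` has `n = r q` vertices, where `q` is a
prime power, then `n ≤ (16 r) ^ 8`. In particular, for every `r` only finitely many such graphs
have `r` times a prime power vertices.
-/

namespace Pool.Agent.Results.MP_9bfff8_co.PrimePowerPart

theorem result {V : Type*} [Fintype V] [DecidableEq V] (Γ : SimpleGraph V) [DecidableRel Γ.Adj]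
    (n k μ : ℕ) (hsrg : Γ.IsSRGWith n k 0 μ) (h1 : 1 ≤ μ) (h2 : μ < k)
    (r q : ℕ) (hq : IsPrimePow q) (hn : n = r * q) : n ≤ (16 * r) ^ 8 := by
  obtain ⟨p, a, hp, -, hpa⟩ := hq
  exact Pool.Agent.TFQ.bound_n Γ hsrg h1 h2 hp.nat_prime (hn.trans (by rw [hpa]))

end Pool.Agent.Results.MP_9bfff8_co.PrimePowerPart
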