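import Mathlib
import Pool.Agent.TFQ.Small

set_option autoImplicit false

/-!
# Triangle-free strongly regular graphs on `r q` vertices, `q` a prime power and `r ≤ 10`

A triangle-free strongly regular graph with `1 ≤ μ < k` on `n = r q` vertices, `q` a prime power
and `1 ≤ r ≤ 10`, has the parameters of one of the seven known graphs or one of six further
parameter sets.
-/

namespace Pool.Agent.Results.MP_9bfff8_co.SmallCofactor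

theorem result {V : Type*} [Fintype V] [DecidableEq V] (Γ : SimpleGraph V) [DecidableRel Γ.Adj]
    (n k μ : ℕ) (hsrg : Γ.IsSRGWith n k 0 μ) (h1 : 1 ≤ μ) (h2 : μ < k)
    (r q : ℕ) (hq : IsPrimePow q) (hr : 1 ≤ r) (hr10 : r ≤ 10) (hn : n = r * q) :
    (n = 5 ∧ k = 2 ∧ μ = 1) ∨ (n = 10 ∧ k = 3 ∧ μ = 1) ∨ (n = 16 ∧ k = 5 ∧ μ = 2) ∨
    (n = 50 ∧ k = 7 ∧ μ = 1) ∨ (n = 56 ∧ k = 10 ∧ μ = 2) ∨ (n = 77 ∧ k = 16 ∧ μ = 4) ∨
    (n = 100 ∧ k = 22 ∧ μ = 6) ∨ (n = 162 ∧ k = 21 ∧ μ = 3) ∨ (n = 324 ∧ k = 57 ∧ μ = 12) ∨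
    (n = 392 ∧ k = 46 ∧ μ = 6) ∨ (n = 1458 ∧ k = 141 ∧ μ = 15) ∨
    (n = 2916 ∧ k = 330 ∧ μ = 42) ∨ (n = 5832 ∧ k = 441 ∧ μ = 36) := by
  obtain ⟨p, a, hp, -, hpa⟩ := hq
  exact Pool.Agent.TFQ.small Γ hsrg h1 h2 hp.nat_prime hr hr10 (hn.trans (by rw [hpa]))

end Pool.Agent.Results.MP_9bfff8_co.SmallCofactor
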